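import Pool.Agent.Helper99.SI.StK

set_option autoImplicit false

/-!
# Project SI (helper99), module K12: matrix traces separate cyclic words
-/

namespace Pool.Agent.Helper27.SI

open Pool.Agent.Helper99.SI Polynomial

variable {n : ℕ}

/-- the weight of an edge -/
noncomputable def tt (k l : ℕ) : ℂ[X] := if l % k = 0 then X else 1

/-- the periodic word -/
def cc (u : W n) (l : ℕ) : Option (Fin n) := u[l % u.length]?

/-- the weight of a word read from the position l -/
noncomputable def vp (c : W n) : W n → ℕ → ℂ[X]
  | [], _ => 1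
  | i :: ν, l => if cc c l = some i then tt c.length l * vp c ν (l + 1) else 0

theorem tt_mod (k l : ℕ) : tt k (l % k) = tt k l := by
  unfold tt; rw [Nat.mod_mod]

theorem cc_mod (c : W n) (l : ℕ) : cc c (l % c.length) = cc c l := by
  unfold cc; rw [Nat.mod_mod]

theorem vp_mod (c μ : W n) (l : ℕ) : vp c μ (l % c.length) = vp c μ l := by
  induction μ generalizing l with
  | nil => rfl
  | cons i ν ih =>
    have h : vp c ν (l % c.length + 1) = vp c ν (l + 1) := by
      rw [← ih (l % c.length + 1), ← ih (l + 1), Nat.mod_add_mod]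
    simp only [vp, tt_mod, cc_mod, h]

/-- the matrices -/
noncomputable def mx (c : W n) (T : ℂ) (i : Fin n) : Matrix (Fin c.length) (Fin c.length) ℂ :=
  fun l l' => if (l' : ℕ) = ((l : ℕ) + 1) % c.length ∧ cc c l = some i then
    (tt c.length l).eval T else 0

theorem mx_prod (c : W n) (hc : c ≠ []) (T : ℂ) (μ : W n) (l l' : Fin c.length) :
    (μ.map (mx c T)).prod l l' =
      if (l' : ℕ) = ((l : ℕ) + μ.length) % c.length then (vp c μ l).eval T else 0 := by
  have hk : 0 < c.length := List.length_pos_of_ne_nil hc
  induction μ generalizing l with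
  | nil =>
    rw [List.map_nil, List.prod_nil, Matrix.one_apply, List.length_nil, add_zero,
      Nat.mod_eq_of_lt l.2]
    have : (l = l') ↔ ((l' : ℕ) = l) := by rw [Fin.ext_iff]; exact eq_comm
    simp only [this, vp, eval_one]
  | cons i ν ih =>
    rw [List.map_cons, List.prod_cons, Matrix.mul_apply,
      Finset.sum_eq_single (⟨((l : ℕ) + 1) % c.length, Nat.mod_lt _ hk⟩ : Fin c.length)]
    · rw [ih]
      have e1 : (((l : ℕ) + 1) % c.length + ν.length) % c.length =
          ((l : ℕ) + (i :: ν).length) % c.length := by
        rw [Nat.mod_add_mod, List.length_cons]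
        congr 1
        omega
      simp only [e1, vp_mod, mx, true_and]
      by_cases h1 : cc c l = some i
      · simp only [h1, if_true, vp, eval_mul]
        split_ifs <;> simp
      · simp only [h1, if_false, vp, zero_mul, eval_zero, ite_self]
    · intro j _ hj
      have : ¬ ((j : ℕ) = ((l : ℕ) + 1) % c.length) := fun h => hj (Fin.ext h)
      simp [mx, this]
    · intro h; exact absurd (Finset.mem_univ _) h

/-- the trace polynomial -/
noncomputable def gp (c μ : W n) : ℂ[X] :=
  if c.length ∣ μ.length then ∑ l ∈ Finset.range c.length, vp c μ l else 0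

theorem trace_eq (c : W n) (hc : c ≠ []) (T : ℂ) (μ : W n) :
    ((μ.map (mx c T)).prod).trace = (gp c μ).eval T := by
  have hk : 0 < c.length := List.length_pos_of_ne_nil hc
  unfold Matrix.trace gp
  simp only [Matrix.diag_apply, mx_prod c hc T μ]
  have h1 : ∀ l : Fin c.length, ((l : ℕ) = ((l : ℕ) + μ.length) % c.length) ↔
      c.length ∣ μ.length := by
    intro l
    constructor
    · intro h
      have h2 : (l : ℕ) ≡ (l : ℕ) + μ.length [MOD c.length] := by
        unfold Nat.ModEq
        rw [← h, Nat.mod_eq_of_lt l.2]
      have h3 : (l : ℕ) + 0 ≡ (l : ℕ) + μ.length [MOD c.length] := by simpa using h2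
      have h4 := Nat.ModEq.add_left_cancel' _ h3
      exact (Nat.modEq_zero_iff_dvd.1 h4.symm)
    · rintro ⟨q, hq⟩
      rw [hq, Nat.add_mul_mod_self_left, Nat.mod_eq_of_lt l.2]
  simp only [h1]
  split_ifs with h
  · rw [eval_finset_sum, Finset.sum_range]
  · simp

/-- the word read along the cycle -/
def seg (c : W n) (l m : ℕ) : List (Option (Fin n)) := (List.range m).map fun s => cc c (l + s)

theorem seg_succ (c : W n) (l m : ℕ) : seg c l (m + 1) = cc c l :: seg c (l + 1) m := by
  unfold seg
  rw [List.range_succ_eq_map, List.map_cons, List.map_map, add_zero]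
  congr 1
  refine List.map_congr_left fun s _ => ?_
  rw [Function.comp_apply, show l + s.succ = l + 1 + s by omega]

open Classical in
theorem vp_eq (c μ : W n) (l : ℕ) :
    vp c μ l = if μ.map some = seg c l μ.length then
      ∏ s ∈ Finset.range μ.length, tt c.length (l + s) else 0 := by
  induction μ generalizing l with
  | nil => simp [vp, seg]
  | cons i ν ih =>
    rw [List.length_cons, seg_succ, List.map_cons, vp, ih, Finset.prod_range_succ']
    by_cases h1 : cc c l = some i
    · by_cases h2 : ν.map some = seg c (l + 1) ν.length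
      · rw [if_pos h1, if_pos h2, if_pos (by rw [h1, h2]), add_zero, mul_comm]
        congr 1
        refine Finset.prod_congr rfl fun s _ => ?_
        congr 1
        omega
      · rw [if_pos h1, if_neg h2, mul_zero, if_neg]
        intro h
        exact h2 (List.cons.inj h).2
    · rw [if_neg h1, if_neg]
      intro h
      exact h1 (List.cons.inj h).1.symm

theorem prod_period (k l : ℕ) (hk : 0 < k) :
    ∏ s ∈ Finset.range k, tt k (l + s) = X := by
  induction l with
  | zero =>
    obtain ⟨j, rfl⟩ : ∃ j, k = j + 1 := ⟨k - 1, by omega⟩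
    rw [Finset.prod_range_succ']
    have h1 : ∀ s ∈ Finset.range j, tt (j + 1) (0 + (s + 1)) = 1 := by
      intro s hs
      rw [Finset.mem_range] at hs
      unfold tt
      rw [if_neg]
      rw [Nat.mod_eq_of_lt (by omega)]
      omega
    rw [Finset.prod_congr rfl h1]
    simp [tt]
  | succ l ih =>
    obtain ⟨j, rfl⟩ : ∃ j, k = j + 1 := ⟨k - 1, by omega⟩
    rw [Finset.prod_range_succ'] at ih
    rw [Finset.prod_range_succ]
    have h1 : tt (j + 1) (l + 1 + j) = tt (j + 1) (l + 0) := by
      unfold tt
      have : (l + 1 + j) % (j + 1) = (l + 0) % (j + 1) := by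
        rw [show l + 1 + j = l + 0 + (j + 1) by omega, Nat.add_mod_right]
      rw [this]
    rw [h1, ← ih]
    congr 1
    refine Finset.prod_congr rfl fun s _ => ?_
    congr 1
    omega

theorem prod_periods (k l q : ℕ) (hk : 0 < k) :
    ∏ s ∈ Finset.range (k * q), tt k (l + s) = X ^ q := by
  induction q with
  | zero => simp
  | succ q ih =>
    rw [Nat.mul_succ, Finset.prod_range_add, ih, pow_succ]
    congr 1
    rw [← prod_period k (l + k * q) hk]
    refine Finset.prod_congr rfl fun s _ => ?_
    congr 1
    omega

theorem seg_rotate (c : W n) (l : ℕ) (hc : c ≠ []) : seg c l c.length = (c.rotate l).map some := by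
  have hk : 0 < c.length := List.length_pos_of_ne_nil hc
  refine List.ext_getElem (by simp [seg]) fun s h1 h2 => ?_
  simp only [seg, List.getElem_map, List.getElem_range, List.getElem_rotate]
  unfold cc
  rw [List.getElem?_eq_getElem (Nat.mod_lt _ hk)]
  congr 2
  rw [Nat.add_comm]

theorem coeff_vp (c μ : W n) (l : ℕ) (hc : c ≠ []) (h : c.length ∣ μ.length) :
    (vp c μ l).coeff 1 = if μ = c.rotate l then 1 else 0 := by
  classical
  have hk : 0 < c.length := List.length_pos_of_ne_nil hc
  obtain ⟨q, hq⟩ := h
  rw [vp_eq, hq, prod_periods _ _ _ hk]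
  by_cases hq1 : q = 1
  · subst hq1
    rw [mul_one, seg_rotate c l hc]
    have : (μ.map some = (c.rotate l).map some) ↔ μ = c.rotate l :=
      ⟨fun h => (List.map_injective_iff.2 (Option.some_injective _)) h, fun h => by rw [h]⟩
    by_cases h2 : μ = c.rotate l
    · rw [if_pos (this.2 h2), if_pos h2, pow_one, coeff_X_one]
    · rw [if_neg (fun h => h2 (this.1 h)), if_neg h2, coeff_zero]
  · have h1 : ¬ μ = c.rotate l := by
      intro h
      rw [h, List.length_rotate] at hq
      exact hq1 (Nat.eq_of_mul_eq_mul_left hk (by omega))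
    rw [if_neg h1]
    split_ifs
    · rw [coeff_X_pow, if_neg (Ne.symm hq1)]
    · exact coeff_zero _

theorem coeff_gp (c μ : W n) (hc : c ≠ []) : (gp c μ).coeff 1 = (rotc μ c : ℂ) := by
  have hk : 0 < c.length := List.length_pos_of_ne_nil hc
  unfold gp rotc
  by_cases hl : μ.length = c.length
  · rw [if_pos (by rw [hl]), if_pos hl, finset_sum_coeff]
    rw [Finset.sum_congr rfl (fun l _ => coeff_vp c μ l hc (by rw [hl])), Finset.sum_boole]
    congr 1
    refine Finset.card_nbij' (fun l => (c.length - l) % c.length)
      (fun l => (c.length - l) % c.length) ?_ ?_ ?_ ?_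
    · intro l hlm
      rw [Finset.mem_coe, Finset.mem_filter, Finset.mem_range] at hlm ⊢
      refine ⟨Nat.mod_lt _ hk, ?_⟩
      have h1 := hlm.2
      rw [← hl, List.rotate_mod, h1, List.rotate_rotate, List.length_rotate,
        show l + (c.length - l) = c.length by omega, List.rotate_length]
    · intro l hlm
      rw [Finset.mem_coe, Finset.mem_filter, Finset.mem_range] at hlm ⊢
      refine ⟨Nat.mod_lt _ hk, ?_⟩
      have h1 := hlm.2
      rw [List.rotate_mod, ← h1, List.rotate_rotate, List.length_rotate,
        show l + (μ.length - l) = μ.length by omega, List.rotate_length]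
    · intro l hlm
      rw [Finset.mem_coe, Finset.mem_filter, Finset.mem_range] at hlm
      rcases Nat.eq_zero_or_pos l with h0 | h0
      · subst h0; simp
      · simp only
        rw [Nat.mod_eq_of_lt (show c.length - l < c.length by omega),
          show c.length - (c.length - l) = l by omega, Nat.mod_eq_of_lt hlm.1]
    · intro l hlm
      rw [Finset.mem_coe, Finset.mem_filter, Finset.mem_range] at hlm
      rcases Nat.eq_zero_or_pos l with h0 | h0
      · subst h0; simp
      · simp only
        rw [Nat.mod_eq_of_lt (show c.length - l < c.length by omega),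
          show c.length - (c.length - l) = l by omega, Nat.mod_eq_of_lt hlm.1]
  · rw [if_neg hl, Nat.cast_zero]
    split_ifs with hd
    · rw [finset_sum_coeff]
      refine Finset.sum_eq_zero fun l _ => ?_
      rw [coeff_vp c μ l hc hd, if_neg]
      intro h
      rw [h, List.length_rotate] at hl
      exact hl rfl
    · exact coeff_zero _

theorem hK12 : StK12 := by
  intro n f hf c hc
  have h1 : (f.sum fun μ r => C r * gp c μ) = 0 := by
    refine Polynomial.funext fun T => ?_
    rw [eval_zero, Finsupp.sum, eval_finset_sum]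
    rw [← hf c.length (mx c T), Finsupp.sum]
    refine Finset.sum_congr rfl fun μ _ => ?_
    rw [eval_mul, eval_C, trace_eq c hc T μ]
  have h2 := congrArg (fun P : ℂ[X] => P.coeff 1) h1
  simp only [coeff_zero] at h2
  rw [← h2, Finsupp.sum, Finsupp.sum, finset_sum_coeff]
  refine Finset.sum_congr rfl fun μ _ => ?_
  rw [coeff_C_mul, coeff_gp c μ hc]

end Pool.Agent.Helper27.SI
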