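import Pool.Agent.Helper99.SI.StK

set_option autoImplicit false

/-!
# Project SI (helper99), module K16: positivity of the second grading
-/

namespace Pool.Agent.Helper27.SI

open Pool.Agent.Helper99.SI

variable {n : ℕ} {L : Type} [Ring L] [Algebra ℂ L] [StarRing L] [StarModule ℂ L] [Nontrivial L]

/-- tau as a linear map -/
noncomputable def tl (h2 : StK2) (D : Sys n L) (c : W n) (hc : c ≠ []) : L →ₗ[ℂ] ℂ where
  toFun := D.tau c
  map_add' := (h2 n L D c hc).2.1
  map_smul' r y := by rw [(h2 n L D c hc).2.2.1 r y, smul_eq_mul, RingHom.id_apply]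

theorem tl_apply (h2 : StK2) (D : Sys n L) (c : W n) (hc : c ≠ []) (y : L) :
    tl h2 D c hc y = D.tau c y := rfl

theorem supp_ne {u : W n →₀ ℂ} (hu : u [] = 0) {c : W n} (hc : c ∈ u.support) : c ≠ [] := by
  intro h
  rw [h, Finsupp.mem_support_iff] at hc
  exact hc hu

theorem double (h2 : StK2) (D : Sys n L) (P : L →ₗ[ℂ] L) (u v : W n →₀ ℂ) (hv : v [] = 0) :
    (u.sum fun a r => v.sum fun c s => r * star s * D.tau c (P (D.w a))) =
      v.sum fun c s => star s * D.tau c (P (D.emb u)) := by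
  unfold Finsupp.sum
  rw [Finset.sum_comm]
  refine Finset.sum_congr rfl fun c hc => ?_
  have hc' := supp_ne hv hc
  have e1 : D.tau c (P (D.emb u)) = ∑ a ∈ u.support, u a * D.tau c (P (D.w a)) := by
    rw [← tl_apply h2 D c hc', Sys.emb, Finsupp.linearCombination_apply, Finsupp.sum, map_sum,
      map_sum]
    refine Finset.sum_congr rfl fun a _ => ?_
    rw [map_smul, map_smul, smul_eq_mul, tl_apply]
  beta_reduce
  rw [e1, Finset.mul_sum]
  exact Finset.sum_congr rfl fun a _ => by ring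

theorem hf_eq (h2 : StK2) (D : Sys n L) (u v : W n →₀ ℂ) (hv : v [] = 0) :
    D.hf u v = v.sum fun c s => star s * D.tau c (D.emb u) :=
  double h2 D LinearMap.id u v hv

theorem qf_eq (h2 : StK2) (D : Sys n L) (j : ℤ) (u v : W n →₀ ℂ) (hv : v [] = 0) :
    D.qf j u v = v.sum fun c s => star s * D.tau c (D.b.p j (D.emb u)) :=
  double h2 D (D.b.p j) u v hv

theorem df_eq (h2 : StK2) (D : Sys n L) (u v : W n →₀ ℂ) (hv : v [] = 0) :
    D.df u v = v.sum fun c s => star s * D.tau c (D.b.dd (D.emb u)) :=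
  double h2 D D.b.dd u v hv

theorem tau_sum (h2 : StK2) (D : Sys n L) (c : W n) (hc : c ≠ []) (y : L) (F : Finset ℤ)
    (hF : ∀ j, D.b.p j y ≠ 0 → j ∈ F) : D.tau c y = ∑ j ∈ F, D.tau c (D.b.p j y) := by
  have e1 : ∑ j ∈ F, D.b.p j y = y := by
    rw [← finsum_eq_sum_of_support_subset (fun j => D.b.p j y)
      (fun j hj => Finset.mem_coe.2 (hF j hj))]
    exact D.b.sum y
  conv_lhs => rw [← e1]
  rw [← tl_apply h2 D c hc, map_sum]
  rfl

theorem tau_dd (h2 : StK2) (D : Sys n L) (c : W n) (hc : c ≠ []) (y : L) (F : Finset ℤ)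
    (hF : ∀ j, D.b.p j y ≠ 0 → j ∈ F) :
    D.tau c (D.b.dd y) = ∑ j ∈ F, (j : ℂ) * D.tau c (D.b.p j y) := by
  have e1 : D.b.dd y = ∑ j ∈ F, (j : ℂ) • D.b.p j y := by
    refine finsum_eq_sum_of_support_subset (fun j : ℤ => (j : ℂ) • D.b.p j y) fun j hj => ?_
    refine Finset.mem_coe.2 (hF j fun h => hj ?_)
    change (j : ℂ) • D.b.p j y = 0
    rw [h, smul_zero]
  rw [e1, ← tl_apply h2 D c hc, map_sum]
  refine Finset.sum_congr rfl fun j _ => ?_
  rw [map_smul, smul_eq_mul, tl_apply]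

theorem qf_herm (h3 : StK9) (D : Sys n L) (j : ℤ) (u v : W n →₀ ℂ) (hu : u [] = 0)
    (hv : v [] = 0) : D.qf j u v = star (D.qf j v u) := by
  unfold Sys.qf Finsupp.sum
  rw [star_sum, Finset.sum_comm]
  refine Finset.sum_congr rfl fun c hc => ?_
  rw [star_sum]
  refine Finset.sum_congr rfl fun a ha => ?_
  beta_reduce
  rw [star_mul', star_mul', star_star, h3 n L D a c j (supp_ne hu ha) (supp_ne hv hc)]
  ring

theorem tau_one (h2 : StK2) (D : Sys n L) (c : W n) (hc : c ≠ []) (i : ℤ) :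
    D.tau c (D.b.p i 1) = 0 := by
  have e1 : D.tau c (1 : L) = 0 := by
    have h := (h2 n L D c hc).2.2.2.1 []
    have hw : D.w [] = 1 := by simp [Sys.w, wd]
    have hr : rotc [] c = 0 := by
      unfold rotc
      rw [if_neg]
      intro h
      exact hc (List.length_eq_zero_iff.1 h.symm)
    rw [hw, hr] at h
    simpa using h
  have e2 : D.b.p i (1 : L) = if i = 0 then 1 else 0 := by
    have h := D.b.pp i 0 (1 : L)
    rw [D.b.one] at h
    exact h
  rw [e2]
  split_ifs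
  · exact e1
  · rw [← tl_apply h2 D c hc, map_zero]

theorem replace (h2 : StK2) (h5 : StK14) (D : Sys n L) (y : L) :
    ∃ w : W n →₀ ℂ, w [] = 0 ∧ ∀ (c : W n) (i : ℤ), c ≠ [] →
      D.tau c (D.b.p i y) = D.tau c (D.b.p i (D.emb w)) := by
  obtain ⟨w, hw⟩ := h5 n L D y
  refine ⟨w.erase [], Finsupp.erase_same, fun c i hc => ?_⟩
  rw [hw c i hc]
  have e1 : D.emb w = w [] • (1 : L) + D.emb (w.erase []) := by
    have h := Finsupp.single_add_erase ([] : W n) w
    conv_lhs => rw [← h]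
    rw [map_add]
    congr 1
    rw [Sys.emb, Finsupp.linearCombination_single]
    simp [Sys.w, wd]
  rw [e1, map_add, map_smul, ← tl_apply h2 D c hc, map_add, map_smul, tl_apply, tl_apply,
    tau_one h2 D c hc i, smul_zero, zero_add]

theorem qf_nonneg (h2 : StK2) (h3 : StK9) (h5 : StK14) (h6 : StK15) (D : Sys n L) (j : ℤ)
    (u : W n →₀ ℂ) (hu : u [] = 0) : 0 ≤ (D.qf j u u).re := by
  obtain ⟨w, hw0, hw⟩ := replace h2 h5 D (D.b.p j (D.emb u))
  have k1 : ∀ c : W n, c ≠ [] → D.tau c (D.b.p j (D.emb w)) = D.tau c (D.b.p j (D.emb u)) := by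
    intro c hc
    rw [← hw c j hc, D.b.pp, if_pos rfl]
  have k2 : ∀ c : W n, c ≠ [] → D.tau c (D.emb w) = D.tau c (D.b.p j (D.emb u)) := by
    intro c hc
    classical
    set F : Finset ℤ := (D.b.fin (D.emb w)).toFinset ∪ (D.b.fin (D.b.p j (D.emb u))).toFinset
      with hF
    rw [tau_sum h2 D c hc (D.emb w) F (fun i hi => by
        rw [hF, Finset.mem_union, Set.Finite.mem_toFinset]; exact Or.inl hi),
      tau_sum h2 D c hc (D.b.p j (D.emb u)) F (fun i hi => by
        rw [hF, Finset.mem_union, Set.Finite.mem_toFinset, Set.Finite.mem_toFinset]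
        exact Or.inr hi)]
    exact Finset.sum_congr rfl fun i _ => (hw c i hc).symm
  have e1 : D.qf j u u = D.qf j w u := by
    rw [qf_eq h2 D j u u hu, qf_eq h2 D j w u hu]
    refine Finset.sum_congr rfl fun c hc => ?_
    simp only
    rw [k1 c (supp_ne hu hc)]
  have e2 : D.qf j u w = D.hf w w := by
    rw [qf_eq h2 D j u w hw0, hf_eq h2 D w w hw0]
    refine Finset.sum_congr rfl fun c hc => ?_
    simp only
    rw [k2 c (supp_ne hw0 hc)]
  rw [e1, qf_herm h3 D j w u hw0 hu, e2]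
  have h := (h6 n L D w w hw0 hw0).1.1
  have hs : (star (D.hf w w)).re = (D.hf w w).re := Complex.conj_re _
  rw [hs]
  exact h

theorem hK16 (h1 : StA0) (h2 : StK2) (h3 : StK9) (h4 : StK13) (h5 : StK14) (h6 : StK15) :
    StK16 := by
  intro n L _ _ _ _ _ D u hu
  have _h1 := h1
  set F : Finset ℤ := (D.b.fin (D.emb u)).toFinset with hF
  have hFm : ∀ j, D.b.p j (D.emb u) ≠ 0 → j ∈ F := fun j hj => by
    rw [hF, Set.Finite.mem_toFinset]; exact hj
  have e1 : D.hf u u = ∑ j ∈ F, D.qf j u u := by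
    rw [hf_eq h2 D u u hu, Finset.sum_congr rfl (fun j _ => qf_eq h2 D j u u hu)]
    unfold Finsupp.sum
    rw [Finset.sum_comm]
    refine Finset.sum_congr rfl fun c hc => ?_
    beta_reduce
    rw [tau_sum h2 D c (supp_ne hu hc) (D.emb u) F hFm, Finset.mul_sum]
  have e2 : D.df u u = ∑ j ∈ F, (j : ℂ) * D.qf j u u := by
    rw [df_eq h2 D u u hu,
      Finset.sum_congr rfl (fun (j : ℤ) _ => by rw [qf_eq h2 D j u u hu])]
    unfold Finsupp.sum
    rw [Finset.sum_congr rfl (fun (j : ℤ) _ => Finset.mul_sum _ _ _), Finset.sum_comm]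
    refine Finset.sum_congr rfl fun c hc => ?_
    beta_reduce
    rw [tau_dd h2 D c (supp_ne hu hc) (D.emb u) F hFm, Finset.mul_sum]
    exact Finset.sum_congr rfl fun j _ => by ring
  rw [e1, e2, Complex.re_sum, Complex.re_sum]
  refine Finset.sum_le_sum fun j _ => ?_
  by_cases hj : j ≤ 0
  · have hz : D.qf j u u = 0 := by
      unfold Sys.qf Finsupp.sum
      refine Finset.sum_eq_zero fun a _ => Finset.sum_eq_zero fun c hc => ?_
      beta_reduce
      rw [h4 n L D a c j (supp_ne hu hc) hj, mul_zero]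
    rw [hz, mul_zero]
  · have hj1 : (1 : ℝ) ≤ (j : ℝ) := by exact_mod_cast (by omega : (1 : ℤ) ≤ j)
    have hq := qf_nonneg h2 h3 h5 h6 D j u hu
    have e3 : ((j : ℂ) * D.qf j u u).re = (j : ℝ) * (D.qf j u u).re := by
      rw [Complex.mul_re]
      simp
    rw [e3]
    nlinarith

end Pool.Agent.Helper27.SI
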